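import Pool.Agent.Lib.MP_55eb77_al.Bridge
import Pool.Agent.Lib.MP_55eb77_al.Four2

/-!
Dimension four, rank two: both questions are answered for all `q`.
-/

set_option autoImplicit false

namespace Pool.Agent.Results.MP_55eb77_al.DimensionFour

open Matrix Module Pool.Agent.Lib.MP_55eb77_al

variable {F : Type*} [Field F]

/-- `G` permutes two complementary subspaces of dimension two. -/
def PreservesPair (G : Subgroup (GL (Fin 4) F)) : Prop :=
  ∃ X Y : Submodule F (Fin 4 → F), finrank F X = 2 ∧ finrank F Y = 2 ∧ X ⊓ Y = ⊥ ∧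
    ∀ g ∈ G, (img g X = X ∨ img g X = Y) ∧ (img g Y = X ∨ img g Y = Y)

/-- `G` preserves a decomposition `F ^ 4 = F ^ 2 ⊗ F ^ 2`: in suitable coordinates `F ^ 4` is the
space of `2 × 2` matrices and every element of `G` acts as `X ↦ A X B`. -/
def PreservesTensor (G : Subgroup (GL (Fin 4) F)) : Prop :=
  ∃ e : Matrix (Fin 2) (Fin 2) F ≃ₗ[F] (Fin 4 → F),
    ∀ g ∈ G, ∃ A B : Matrix (Fin 2) (Fin 2) F,
      ∀ X, (g : Matrix (Fin 4) (Fin 4) F) *ᵥ (e X) = e (A * X * B)

/-- For `n = 4` and `k = 2`, over every finite field, a subgroup `G` of `GL(4, F)` has property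
(R1) if and only if it has property (R2), and this holds if and only if `G` is irreducible, permutes
no two complementary planes, and preserves no tensor decomposition. -/
theorem result [Finite F] (G : Subgroup (GL (Fin 4) F)) :
    (R1 G 2 ↔ IsIrred G ∧ ¬ PreservesPair G ∧ ¬ PreservesTensor G) ∧
      (R2 G 2 ↔ IsIrred G ∧ ¬ PreservesPair G ∧ ¬ PreservesTensor G) := by
  have hP : PreservesPair G ↔ Pair (Gam G) := by
    constructor
    · rintro ⟨X, Y, hX, hY, hXY, h⟩
      refine ⟨X, Y, hX, hY, hXY, ?_⟩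
      rintro _ ⟨g, hg, rfl⟩
      exact h g hg
    · rintro ⟨X, Y, hX, hY, hXY, h⟩
      exact ⟨X, Y, hX, hY, hXY, fun g hg => h _ ⟨g, hg, rfl⟩⟩
  have hT : PreservesTensor G ↔ Tens (Gam G) 2 2 := by
    constructor
    · rintro ⟨e, h⟩
      refine ⟨e, ?_⟩
      rintro _ ⟨g, hg, rfl⟩
      exact h g hg
    · rintro ⟨e, h⟩
      exact ⟨e, fun g hg => h _ ⟨g, hg, rfl⟩⟩
  rw [R1_iff, R2_iff, irred_iff, hP, hT]
  exact four_abstract (grp_Gam G) (finrank_fin_fun F)

end Pool.Agent.Results.MP_55eb77_al.DimensionFour
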