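import Pool.Agent.Lib.MP_55eb77_al.Bridge
import Pool.Agent.Lib.MP_55eb77_al.Trans

/-!
Groups with long orbits on points, in particular all groups transitive on points.
-/

set_option autoImplicit false

namespace Pool.Agent.Results.MP_55eb77_al.LongOrbits

open Matrix Module Pool.Agent.Lib.MP_55eb77_al

/-- The nonzero vectors on the lines of the orbit of the line `⟨u⟩`. -/
def orbitVectors {F : Type*} [Field F] {n : ℕ} (G : Subgroup (GL (Fin n) F)) (u : Fin n → F) :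
    Set (Fin n → F) :=
  {v | ∃ g ∈ G, ∃ c : F, c ≠ 0 ∧ v = c • ((g : Matrix (Fin n) (Fin n) F) *ᵥ u)}

/-- All orbits of `G` on the one-dimensional subspaces have more than
`(q ^ k - 1) (q ^ (n - k) - 1) / (q - 1) ^ 2` members (an orbit with `m` members has
`(q - 1) m` nonzero vectors). -/
def IsLong {F : Type*} [Field F] {n : ℕ} (G : Subgroup (GL (Fin n) F)) (k : ℕ) : Prop :=
  ∀ u : Fin n → F, u ≠ 0 →
    (Nat.card F ^ k - 1) * (Nat.card F ^ (n - k) - 1) <
      (Nat.card F - 1) * Nat.card (orbitVectors G u)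

theorem orb_eq {F : Type*} [Field F] {n : ℕ} (G : Subgroup (GL (Fin n) F)) (u : Fin n → F) :
    orbitVectors G u = Orb (Gam G) u := by
  ext v
  constructor
  · rintro ⟨g, hg, c, hc, rfl⟩
    exact ⟨_, ⟨g, hg, rfl⟩, c, hc, rfl⟩
  · rintro ⟨_, ⟨g, hg, rfl⟩, c, hc, rfl⟩
    exact ⟨g, hg, c, hc, rfl⟩

/-- Let `G` be a subgroup of `GL(n, q)`. If all orbits of `G` on points have more than
`(q ^ k - 1) (q ^ (n - k) - 1) / (q - 1) ^ 2` members, then `G` has (R1) for rank `k`; if this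
holds for all `1 ≤ l ≤ k`, then `G` has (R2) for rank `k`. Every group transitive on points has
(R1) and (R2) for all ranks. -/
theorem result {F : Type*} [Field F] [Finite F] (n : ℕ) (G : Subgroup (GL (Fin n) F)) :
    (∀ k, 1 ≤ k → k + 1 ≤ n → IsLong G k → R1 G k) ∧
    (∀ k, 1 ≤ k → k + 1 ≤ n → (∀ l, 1 ≤ l → l ≤ k → IsLong G l) → R2 G k) ∧
    ((∀ u v : Fin n → F, u ≠ 0 → v ≠ 0 →
        ∃ g ∈ G, ∃ c : F, (g : Matrix (Fin n) (Fin n) F) *ᵥ u = c • v) →
      ∀ k, k + 1 ≤ n → R1 G k ∧ R2 G k) := by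
  have hΓ := grp_Gam G
  have hmeet : ∀ k, 1 ≤ k → k + 1 ≤ n → IsLong G k → Meet (Gam G) k := by
    intro k hk1 hk2 h
    apply meet_of_long hΓ hk1 (by rw [finrank_fin_fun]; exact hk2)
    intro u hu
    rw [finrank_fin_fun, ← orb_eq]
    exact h u hu
  refine ⟨?_, ?_, ?_⟩
  · intro k hk1 hk2 h
    rw [R1_iff, R1k_iff hΓ]
    exact hmeet k hk1 hk2 h
  · intro k hk1 hk2 h
    rw [R2_iff]
    exact R2k_of_meet hΓ k (fun l hl1 hl2 => hmeet l hl1 (by omega) (h l hl1 hl2))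
  · intro h k hk
    rw [R1_iff, R2_iff]
    apply regular_of_trans hΓ
    · intro u v hu hv
      obtain ⟨g, hg, c, hc⟩ := h u v hu hv
      exact ⟨_, ⟨g, hg, rfl⟩, c, hc⟩
    · rw [finrank_fin_fun]
      exact hk

end Pool.Agent.Results.MP_55eb77_al.LongOrbits
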