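import Pool.Agent.Lib.MP_55eb77_al.Bridge
import Pool.Agent.Lib.MP_55eb77_al.Obstr
import Pool.Agent.Lib.MP_55eb77_al.Torus

/-!
Ranks `2 ≤ k ≤ n - 2`: structure of the groups with (R1), and monomial groups.
-/

set_option autoImplicit false

namespace Pool.Agent.Results.MP_55eb77_al.MiddleRanks

open Matrix Module Pool.Agent.Lib.MP_55eb77_al

variable {F : Type*} [Field F] {n : ℕ}

/-- `G` is `k`-homogeneous on the family `W`: any `k` members can be mapped to any `k` members. -/
def IsKHomogeneous (G : Subgroup (GL (Fin n) F)) {r : ℕ} (W : Fin r → Submodule F (Fin n → F))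
    (k : ℕ) : Prop :=
  ∀ I J : Finset (Fin r), I.card = k → J.card = k → ∃ g ∈ G, ∀ i ∈ I, ∃ j ∈ J, img g (W i) = W j

/-- `G` preserves a decomposition `F ^ n = F ^ a ⊗ F ^ b`: in suitable coordinates `F ^ n` is the
space of `a × b` matrices and every element of `G` acts as `X ↦ A X B`. -/
def PreservesTensor (G : Subgroup (GL (Fin n) F)) (a b : ℕ) : Prop :=
  ∃ e : Matrix (Fin a) (Fin b) F ≃ₗ[F] (Fin n → F),
    ∀ g ∈ G, ∃ (A : Matrix (Fin a) (Fin a) F) (B : Matrix (Fin b) (Fin b) F),
      ∀ X, (g : Matrix (Fin n) (Fin n) F) *ᵥ (e X) = e (A * X * B)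

/-- The coordinate lines. -/
def line (F : Type*) [Field F] {n : ℕ} (i : Fin n) : Submodule F (Fin n → F) :=
  Submodule.span F {Pi.single i 1}

/-- `G` permutes the coordinate lines and contains all invertible diagonal matrices. -/
def IsFullMonomial (G : Subgroup (GL (Fin n) F)) : Prop :=
  (∀ g ∈ G, ∀ i, ∃ j, img g (line F i) = line F j) ∧
    ∀ d : Fin n → F, (∀ i, d i ≠ 0) → ∃ g ∈ G, (g : Matrix (Fin n) (Fin n) F) = diagonal d

theorem kHom_iff (G : Subgroup (GL (Fin n) F)) {r : ℕ} (W : Fin r → Submodule F (Fin n → F))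
    (k : ℕ) : IsKHomogeneous G W k ↔ ∀ I J : Finset (Fin r), I.card = k → J.card = k →
      ∃ g ∈ Gam G, ∀ i ∈ I, ∃ j ∈ J, (W i).map g = W j := by
  constructor
  · intro h I J hI hJ
    obtain ⟨g, hg, h1⟩ := h I J hI hJ
    exact ⟨_, ⟨g, hg, rfl⟩, h1⟩
  · intro h I J hI hJ
    obtain ⟨_, ⟨g, hg, rfl⟩, h1⟩ := h I J hI hJ
    exact ⟨g, hg, h1⟩

theorem map_line {g : End F (Fin n → F)} {i j : Fin n}
    (h : (line F i).map g = line F j) : ∃ c : F, g (Pi.basisFun F (Fin n) i) =
      c • Pi.basisFun F (Fin n) j := by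
  have h1 : g (Pi.single i 1) ∈ line F j := by
    rw [← h]
    exact ⟨_, Submodule.mem_span_singleton_self _, rfl⟩
  obtain ⟨c, hc⟩ := Submodule.mem_span_singleton.1 h1
  exact ⟨c, by rw [Pi.basisFun_apply, Pi.basisFun_apply, ← hc]⟩

theorem iSupIndep_line : iSupIndep (fun i : Fin n => line F i) := by
  have h := (Pi.basisFun F (Fin n)).linearIndependent.iSupIndep_span_singleton
  have e : (fun i : Fin n => line F i) = fun i => F ∙ (Pi.basisFun F (Fin n)) i := by
    funext i
    rw [Pi.basisFun_apply]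
    rfl
  rw [e]
  exact h

theorem iSup_line : (⨆ i : Fin n, line F i) = ⊤ := by
  rw [eq_top_iff, ← (Pi.basisFun F (Fin n)).span_eq, Submodule.span_le]
  rintro _ ⟨i, rfl⟩
  rw [Pi.basisFun_apply]
  exact (le_iSup (fun i : Fin n => line F i) i) (Submodule.mem_span_singleton_self _)

theorem finrank_line (i : Fin n) : finrank F (line F i) = 1 := by
  apply finrank_span_singleton
  intro h
  have := congrFun h i
  simp at this

theorem diag_eq (d : Fin n → F) :
    (toLin' (diagonal d) : End F (Fin n → F)) = Pool.Agent.Lib.MP_55eb77_al.diag (Pi.basisFun F (Fin n)) d := by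
  apply (Pi.basisFun F (Fin n)).ext
  intro i
  rw [Pool.Agent.Lib.MP_55eb77_al.diag, Basis.constr_basis, Pi.basisFun_apply, toLin'_apply]
  funext j
  rw [mulVec_diagonal, Pi.smul_apply, smul_eq_mul, Pi.single_apply]
  by_cases hji : j = i
  · subst hji; simp
  · simp [hji]

/-- (1) (R1) for rank `k` and for rank `n - k` are equivalent. (2) For `2 ≤ k ≤ n - 2` a group
with (R1) is irreducible, each of its systems of imprimitivity consists of lines which it permutes
`k`-homogeneously, and it preserves no tensor decomposition. (3) If `|F| ≥ 3`, a group of monomial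
matrices containing all invertible diagonal matrices has (R1) for rank `k` if and only if it is
`k`-homogeneous on the coordinate lines, and it has (R2) for rank `k` if it is `l`-homogeneous for
all `1 ≤ l ≤ k`. -/
theorem result [Finite F] (G : Subgroup (GL (Fin n) F)) (k : ℕ) :
    (k ≤ n → (R1 G k ↔ R1 G (n - k))) ∧
    (2 ≤ k → k + 2 ≤ n → R1 G k →
      IsIrred G ∧
      (∀ (r : ℕ) (W : Fin r → Submodule F (Fin n → F)), IsSystem G W →
        (∀ i, finrank F (W i) = 1) ∧ IsKHomogeneous G W k) ∧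
      (∀ a b : ℕ, 2 ≤ a → 2 ≤ b → ¬ PreservesTensor G a b)) ∧
    (k ≤ n → 3 ≤ Nat.card F → IsFullMonomial G →
      (R1 G k ↔ IsKHomogeneous G (line F) k) ∧
      ((∀ l, 1 ≤ l → l ≤ k → IsKHomogeneous G (line F) l) → R2 G k)) := by
  have hΓ := grp_Gam G
  have hn : finrank F (Fin n → F) = n := finrank_fin_fun F
  refine ⟨?_, ?_, ?_⟩
  · intro hk
    rw [R1_iff, R1_iff, R1k_iff hΓ, R1k_iff hΓ]
    exact ⟨fun h => h.dual hΓ (by omega), fun h => h.dual hΓ (by omega)⟩
  · intro hk2 hkn hR
    rw [R1_iff, R1k_iff hΓ] at hR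
    refine ⟨?_, ?_, ?_⟩
    · rw [irred_iff]
      exact hR.irred hΓ (by omega) (by omega)
    · rintro r W ⟨hr, hW, hind, hsup, hperm⟩
      have hperm' : ∀ g ∈ Gam G, ∀ i, ∃ j, (W i).map g = W j := by
        rintro _ ⟨g, hg, rfl⟩ i
        exact hperm g hg i
      have hd : ∀ i, finrank F (W i) = 1 :=
        block_dim hΓ hk2 (by omega) hR hr hW hind hsup hperm'
      refine ⟨hd, ?_⟩
      rw [kHom_iff]
      exact fun I J hI hJ => block_homog hR hind hsup hd hperm' I J hI hJ
    · rintro a b ha hb ⟨e, he⟩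
      refine not_tens hΓ (a := a) (b := b) ⟨e, ?_⟩ ha hb hk2 (by omega) hR
      rintro _ ⟨g, hg, rfl⟩
      obtain ⟨A, B, hAB⟩ := he g hg
      exact ⟨A, B, fun X => hAB X⟩
  · rintro hk hF ⟨hmono, htorus⟩
    obtain ⟨ζ, hζ0, hζ1⟩ : ∃ ζ : F, ζ ≠ 0 ∧ ζ ≠ 1 := by
      classical
      have := Fintype.ofFinite F
      by_contra hcon
      push Not at hcon
      have h1 : (Finset.univ : Finset F) ⊆ {0, 1} := by
        intro x _
        by_cases hx : x = 0
        · simp [hx]
        · simp [hcon x hx]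
      have h2 := Finset.card_le_card h1
      rw [Finset.card_univ] at h2
      rw [Nat.card_eq_fintype_card] at hF
      have h3 : ({0, 1} : Finset F).card ≤ 2 := Finset.card_le_two
      omega
    have hperm' : ∀ g ∈ Gam G, ∀ i, ∃ j, (line F i).map g = line F j := by
      rintro _ ⟨g, hg, rfl⟩ i
      exact hmono g hg i
    have hsuff : ∀ l, IsKHomogeneous G (line F) l → Meet (Gam G) l := by
      intro l hl
      rw [kHom_iff] at hl
      apply meet_of_torus hΓ (Pi.basisFun F (Fin n)) hζ0 hζ1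
      · intro g hg i
        obtain ⟨j, hj⟩ := hperm' g hg i
        exact ⟨j, map_line hj⟩
      · intro c hc
        obtain ⟨g, hg, hgd⟩ := htorus c hc
        rw [← diag_eq, ← hgd]
        exact ⟨g, hg, rfl⟩
      · intro I J hI hJ
        obtain ⟨g, hg, h1⟩ := hl I J hI hJ
        refine ⟨g, hg, fun i hi => ?_⟩
        obtain ⟨j, hj, h2⟩ := h1 i hi
        exact ⟨j, hj, map_line h2⟩
    refine ⟨?_, ?_⟩
    · rw [R1_iff, R1k_iff hΓ]
      constructor
      · intro h
        rw [kHom_iff]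
        exact fun I J hI hJ => block_homog h iSupIndep_line iSup_line finrank_line hperm' I J hI hJ
      · exact hsuff k
    · intro h
      rw [R2_iff]
      exact R2k_of_meet hΓ k (fun l hl1 hl2 => hsuff l (h l hl1 hl2))

end Pool.Agent.Results.MP_55eb77_al.MiddleRanks
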