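import Pool.Agent.Lib.MP_55eb77_al.Bridge

/-!
Ranks `1` and `n - 1`: both questions are answered for all `n` and `q`.
-/

set_option autoImplicit false

namespace Pool.Agent.Results.MP_55eb77_al.RankOneCorankOne

open Matrix Module Pool.Agent.Lib.MP_55eb77_al

/-- Let `F` be a finite field, `n ≥ 2` and `G ≤ GL(n, F)`. Properties (R1) and (R2) for rank `1`
and (R1) for rank `n - 1` hold if and only if `G` is irreducible. Property (R2) for rank `n - 1`
holds if and only if `G` is irreducible and every direct decomposition of `F ^ n` into at least two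
nonzero subspaces permuted by `G` consists of lines which `G` permutes 2-homogeneously. -/
theorem result {F : Type*} [Field F] [Finite F] (n : ℕ) (hn : 2 ≤ n)
    (G : Subgroup (GL (Fin n) F)) :
    (R1 G 1 ↔ IsIrred G) ∧ (R2 G 1 ↔ IsIrred G) ∧ (R1 G (n - 1) ↔ IsIrred G) ∧
      (R2 G (n - 1) ↔ IsIrred G ∧
        ∀ (r : ℕ) (W : Fin r → Submodule F (Fin n → F)), IsSystem G W →
          (∀ i, finrank F (W i) = 1) ∧ IsTwoHomogeneous G W) := by
  have h := main_abstract (grp_Gam G) (by rw [finrank_fin_fun]; exact hn)
  rw [finrank_fin_fun] at h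
  rw [R1_iff, R2_iff, R1_iff, R2_iff, irred_iff, sysOK_iff]
  exact h

end Pool.Agent.Results.MP_55eb77_al.RankOneCorankOne
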